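import Mathlib
import Pool.Agent.Lib.MP_d21f85_gt.Defs
import Pool.Agent.Lib.MP_d21f85_gt.Final

/-!
Every complete standard Moebius strip `M_a` has an algebraic isometric embedding into
four-dimensional Euclidean space, of order at most 31.

The embedding is `F(t, v) = λ (M(φ) + τ(u) D(φ), u²)` with `τ(u) = τ₀ u / √(1 + u²)`, where `M` is
an explicit closed space curve with trigonometric polynomial coordinates, `D` spans the rulings of
its rectifying developable (a half-twisted strip), and `(u, φ)` are smooth functions of `(t, v)`.
-/

open MoebAlg

namespace Pool.Agent.Results.MP_d21f85_gt.AlgebraicStrip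

/-- For every `a > 0` there is a smooth isometric embedding `F` of `M_a` into `E4` such that
* the image lies in the zero set of finitely many real polynomials, namely its Zariski closure,
  whose ring of polynomial functions has Krull dimension two and whose ideal is prime;
* the Hilbert function of this closure satisfies `2 HF(n) ≤ (n + 1) (31 n + 20)` for all `n`, so
  that its degree (twice the coefficient of `n²` in the Hilbert polynomial) is at most 31. -/
theorem result (a : ℝ) (ha : 0 < a) :
    ∃ F : ℝ × ℝ → E4, IsIsometricEmbedding a F ∧
      (∃ P : Finset (MvPolynomial (Fin 4) ℝ),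
        Set.range F ⊆ zeros (P : Set (MvPolynomial (Fin 4) ℝ)) ∧
        vanish (zeros (P : Set (MvPolynomial (Fin 4) ℝ))) = vanish (Set.range F) ∧
        ringKrullDim (MvPolynomial (Fin 4) ℝ ⧸
          vanish (zeros (P : Set (MvPolynomial (Fin 4) ℝ)))) = 2) ∧
      (vanish (Set.range F)).IsPrime ∧
      ∀ n : ℕ, 2 * hilb (Set.range F) n ≤ (n + 1) * (31 * n + 20) :=
  exists_algebraic a ha

end Pool.Agent.Results.MP_d21f85_gt.AlgebraicStrip
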